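import Pool.Agent.helper51.PC.Defs

/-!
# Plt pairs (MP_74cfa5_ag)

The same definition as `Plt`, in several parts. `X = Spec R` is an affine normal variety over `k` with function
field `K`. A prime divisor `E` over `X` is given by its local ring `O`, a discrete valuation ring of `K` which
contains `R` and whose residue field has transcendence degree `n - 1` over `k`.
-/

set_option autoImplicit false

namespace Pool.Agent.PC

universe u

variable {k : Type u} [Field k] {K : Type u} [Field K] [Algebra k K] {R : Type u} [CommRing R]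
  [Algebra R K]

/-- `S` is a prime divisor and `B` an effective divisor with coefficients at most `1` whose support is finite and
does not contain `S`. Prime divisors are given by their ideals, `B P` is the coefficient of the divisor of `P`. -/
def Boundary (S : Ideal R) (B : Ideal R → ℚ) : Prop :=
  S.IsPrime ∧ S.height = 1 ∧ B S = 0 ∧ (∀ P : Ideal R, 0 ≤ B P ∧ B P ≤ 1) ∧
  {P : Ideal R | P.IsPrime ∧ P.height = 1 ∧ B P ≠ 0}.Finite

open scoped Classical in
/-- `m (div ω + S + B) = div g` near the closed point `M`: for all prime divisors through `M`, with the ideal `P`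
and the local ring `O = R_P`. -/
def CartierAt {n : ℕ} (S : Ideal R) (B : Ideal R → ℚ) (ω : Form k K n) (m : ℕ) (M : Ideal R) (g : K) :
    Prop :=
  ∀ (P : Ideal R) (O : ValuationSubring K), P.IsPrime → P.height = 1 → P ≤ M → IsLocAt P O →
    ∃ s t : ℤ, OrdEq O ω s ∧ HasOrd O g t ∧
      (m : ℚ) * ((s : ℚ) + (if P = S then 1 else 0) + B P) = t

variable (R) in
/-- `ord_O ω - (ord_O g) / m > -1` for all exceptional prime divisors `O` over `X = Spec R` (the centre `P` has
height at least `2`) with `P ≤ M`. -/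
def DiscrAt {n : ℕ} (ω : Form k K n) (m : ℕ) (M : Ideal R) (g : K) : Prop :=
  ∀ (P : Ideal R) (O : ValuationSubring K), Divisorial k n O → IsCenter P O → 2 ≤ P.height →
    P ≤ M → ∃ s t : ℤ, OrdGe O ω s ∧ HasOrd O g t ∧ (-1 : ℚ) < (s : ℚ) - (t : ℚ) / m

variable (k K R) in
/-- `(X, S + B)`, `X = Spec R`, is a plt pair of dimension `n`: `K_X = div ω`, `m (K_X + S + B) = div g` near the
closed point `M`, and the discrepancies of all exceptional prime divisors are greater than `-1`. -/
def IsPlt (n : ℕ) (S : Ideal R) (B : Ideal R → ℚ) : Prop :=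
  Boundary S B ∧ ∃ (ω : Form k K n) (m : ℕ), ω ≠ 0 ∧ 0 < m ∧
    ∀ M : Ideal R, M.IsMaximal → ∃ g : K, g ≠ 0 ∧ CartierAt S B ω m M g ∧ DiscrAt R ω m M g

theorem IsPlt_iff (n : ℕ) (S : Ideal R) (B : Ideal R → ℚ) : IsPlt k K R n S B ↔ Plt k K R n S B := by
  constructor
  · rintro ⟨⟨h1, h2, h3, h4, h5⟩, ω, m, h6, h7, h8⟩
    exact ⟨h1, h2, h3, h4, h5, ω, m, h6, h7, h8⟩
  · rintro ⟨h1, h2, h3, h4, h5, ω, m, h6, h7, h8⟩
    exact ⟨⟨h1, h2, h3, h4, h5⟩, ω, m, h6, h7, h8⟩

end Pool.Agent.PC
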