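import Pool.Agent.helper51.PC.PltPair
import Pool.Agent.helper51.PC.Pair
import Pool.Agent.helper2.PC.TRF

/-!
# The two versions of the definition of plt pairs agree (MP_74cfa5_ag)

The rows use forms in the exterior power of the module of differentials, the statements use functions of
derivations.
-/

set_option autoImplicit false

namespace Pool.Agent.PC

universe u

section

variable (k F : Type u) [Field k] [Field F] [Algebra k F] {n : ℕ}

/-- a form as a function of derivations -/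
noncomputable def BR_L : Form k F n →ₗ[F] PltPair.Form k F n :=
  LinearMap.pi fun D => TRF_P k F F D

theorem BR_dd (f : Fin n → F) : BR_L k F (dd k f) = PltPair.dd k f := by
  ext D
  unfold BR_L
  rw [LinearMap.pi_apply, TRF_P_dd]
  rfl

theorem BR_gen (hn : 0 < n) (hfr : Module.finrank F (Ω[F⁄k]) = n) : ∃ f : Fin n → F,
    BR_L k F (dd k f) ≠ 0 ∧ ∀ θ : Form k F n, ∃ c : F, c • dd k f = θ := by
  have : Module.Finite F (Ω[F⁄k]) := Module.finite_of_finrank_pos (by rw [hfr]; exact hn)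
  have hspan : ⊤ ≤ Submodule.span F (Set.range (KaehlerDifferential.D k F)) :=
    (KaehlerDifferential.span_range_derivation k F).ge
  let b0 := Module.Basis.ofSpan hspan
  have : Fintype ((linearIndepOn_empty F id).extend (Set.empty_subset (Set.range (KaehlerDifferential.D k F)))) :=
    FiniteDimensional.fintypeBasisIndex b0
  have hc : Fintype.card ((linearIndepOn_empty F id).extend (Set.empty_subset (Set.range (KaehlerDifferential.D k F)))) =
      Fintype.card (Fin n) := by
    rw [← Module.finrank_eq_card_basis b0, hfr, Fintype.card_fin]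
  let b := b0.reindex (Fintype.equivOfCardEq hc)
  have hb : ∀ i, ∃ f : F, KaehlerDifferential.D k F f = b i := by
    intro i
    have h1 : b i ∈ Set.range b0 := by
      rw [Module.Basis.reindex_apply]
      exact Set.mem_range_self _
    exact Module.Basis.ofSpan_subset hspan h1
  choose f hf using hb
  let D : Fin n → Derivation k F F := fun j => (b.coord j).compDer (KaehlerDifferential.D k F)
  have hD : ∀ i j, D j (f i) = if i = j then 1 else 0 := by
    intro i j
    change b.coord j (KaehlerDifferential.D k F (f i)) = _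
    rw [hf i, Module.Basis.coord_apply, Module.Basis.repr_self, Finsupp.single_apply]
  have h1 : JJ D f = 1 := by
    unfold JJ
    have h2 : (Matrix.of fun i j => D j (f i)) = 1 := by
      ext i j
      rw [Matrix.of_apply, hD, Matrix.one_apply]
    rw [h2, Matrix.det_one]
  have h3 : BR_L k F (dd k f) ≠ 0 := by
    intro h
    have h4 := congrFun (BR_dd k F f) D
    rw [h] at h4
    have h5 : PltPair.dd k f D = JJ D f := rfl
    rw [h5, h1] at h4
    exact zero_ne_one h4
  have hω : dd k f ≠ 0 := fun h => h3 (by rw [h, map_zero])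
  have hdim : Module.finrank F (Form k F n) = 1 := by
    rw [exteriorPower.finrank_eq, hfr, Nat.choose_self]
  exact ⟨f, h3, fun θ => (finrank_eq_one_iff_of_nonzero' _ hω).mp hdim θ⟩

theorem BR_inj (hn : 0 < n) (hfr : Module.finrank F (Ω[F⁄k]) = n) : Function.Injective (BR_L k F (n := n)) := by
  obtain ⟨f, h3, h4⟩ := BR_gen k F hn hfr
  rw [injective_iff_map_eq_zero]
  intro θ hθ
  obtain ⟨c, hc⟩ := h4 θ
  rw [← hc, map_smul] at hθ
  rcases smul_eq_zero.mp hθ with h6 | h6
  · rw [← hc, h6, zero_smul]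
  · exact absurd h6 h3

theorem BR_reg (O : ValuationSubring F) :
    (Reg k n O).map (BR_L k F).toAddMonoidHom = PltPair.Reg k n O := by
  unfold Reg PltPair.Reg
  rw [AddMonoidHom.map_closure]
  congr 1
  ext z
  constructor
  · rintro ⟨_, ⟨c, hc, a, ha, rfl⟩, rfl⟩
    refine ⟨c, hc, a, ha, ?_⟩
    change BR_L k F (c • dd k a) = _
    rw [map_smul, BR_dd]
  · rintro ⟨c, hc, a, ha, rfl⟩
    refine ⟨c • dd k a, ⟨c, hc, a, ha, rfl⟩, ?_⟩
    change BR_L k F (c • dd k a) = _
    rw [map_smul, BR_dd]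

variable {k F}

theorem BR_ordGe (hn : 0 < n) (hfr : Module.finrank F (Ω[F⁄k]) = n) (O : ValuationSubring F) (ω : Form k F n)
    (s : ℤ) : PltPair.OrdGe O (BR_L k F ω) s ↔ OrdGe O ω s := by
  have hinj := BR_inj k F hn hfr
  constructor
  · rintro ⟨π, hπ, ξ, hξ, h⟩
    rw [← BR_reg] at hξ
    obtain ⟨ξ', hξ', h2⟩ := hξ
    refine ⟨π, hπ, ξ', hξ', hinj ?_⟩
    rw [h, map_smul, ← h2]
    rfl
  · rintro ⟨π, hπ, ξ, hξ, h⟩
    refine ⟨π, hπ, BR_L k F ξ, ?_, ?_⟩
    · rw [← BR_reg]
      exact ⟨ξ, hξ, rfl⟩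
    · rw [h, map_smul]

theorem BR_plt {R : Type u} [CommRing R] [Algebra R F] (hn : 0 < n) (hfr : Module.finrank F (Ω[F⁄k]) = n)
    (S : Ideal R) (B : Ideal R → ℚ) : PltPair.IsPlt k F R n S B ↔ IsPlt k F R n S B := by
  have hinj := BR_inj k F hn hfr
  have hEq : ∀ (O : ValuationSubring F) (ω : Form k F n) (s : ℤ),
      PltPair.OrdEq O (BR_L k F ω) s ↔ OrdEq O ω s := by
    intro O ω s
    exact and_congr (BR_ordGe hn hfr O ω s) (not_congr (BR_ordGe hn hfr O ω (s + 1)))
  have hC : ∀ (ω : Form k F n) (m : ℕ) (M : Ideal R) (g : F),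
      PltPair.CartierAt S B (BR_L k F ω) m M g ↔ CartierAt S B ω m M g := by
    intro ω m M g
    constructor
    · intro h P O h1 h2 h3 h4
      obtain ⟨s, t, h5, h6, h7⟩ := h P O h1 h2 h3 h4
      exact ⟨s, t, (hEq O ω s).1 h5, h6, h7⟩
    · intro h P O h1 h2 h3 h4
      obtain ⟨s, t, h5, h6, h7⟩ := h P O h1 h2 h3 h4
      exact ⟨s, t, (hEq O ω s).2 h5, h6, h7⟩
  have hD : ∀ (ω : Form k F n) (m : ℕ) (M : Ideal R) (g : F),
      PltPair.DiscrAt R (BR_L k F ω) m M g ↔ DiscrAt R ω m M g := by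
    intro ω m M g
    constructor
    · intro h P O h1 h2 h3 h4
      obtain ⟨s, t, h5, h6, h7⟩ := h P O h1 h2 h3 h4
      exact ⟨s, t, (BR_ordGe hn hfr O ω s).1 h5, h6, h7⟩
    · intro h P O h1 h2 h3 h4
      obtain ⟨s, t, h5, h6, h7⟩ := h P O h1 h2 h3 h4
      exact ⟨s, t, (BR_ordGe hn hfr O ω s).2 h5, h6, h7⟩
  have hR : ∀ η : PltPair.Form k F n, PltPair.IsRational k η → ∃ ω : Form k F n, BR_L k F ω = η := by
    intro η h
    have h1 : Submodule.span F (Set.range (PltPair.dd k (K := F) (n := n))) ≤ LinearMap.range (BR_L k F) := by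
      rw [Submodule.span_le]
      rintro _ ⟨f, rfl⟩
      exact ⟨dd k f, BR_dd k F f⟩
    exact h1 h
  have hR2 : ∀ ω : Form k F n, PltPair.IsRational k (BR_L k F ω) := by
    intro ω
    obtain ⟨f, -, h1⟩ := BR_gen k F hn hfr
    obtain ⟨c, rfl⟩ := h1 ω
    rw [map_smul, BR_dd]
    exact Submodule.smul_mem _ c (Submodule.subset_span ⟨f, rfl⟩)
  constructor
  · rintro ⟨h1, η, m, h2, h3, h4, h5⟩
    obtain ⟨ω, rfl⟩ := hR η h2
    refine ⟨h1, ω, m, fun h => h3 (by rw [h, map_zero]), h4, fun M hM => ?_⟩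
    obtain ⟨g, h6, h7, h8⟩ := h5 M hM
    exact ⟨g, h6, (hC ω m M g).1 h7, (hD ω m M g).1 h8⟩
  · rintro ⟨h1, ω, m, h3, h4, h5⟩
    refine ⟨h1, BR_L k F ω, m, hR2 ω, fun h => h3 (hinj (by rw [h, map_zero])), h4, fun M hM => ?_⟩
    obtain ⟨g, h6, h7, h8⟩ := h5 M hM
    exact ⟨g, h6, (hC ω m M g).2 h7, (hD ω m M g).2 h8⟩

end

end Pool.Agent.PC
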