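import Pool.Agent.helper30.PC.SGK
import Pool.Agent.helper18.PC.FGI
import Pool.Agent.helper11.PC.NOR
import Pool.Agent.helper31.PC.DIM
import Pool.Agent.helper45.PC.SID
import Pool.Agent.helper32.PC.NNS
import Pool.Agent.helper89.PC.FIX
import Pool.Agent.helper16.PC.LDV
import Pool.Agent.helper67.PC.DRV
import Pool.Agent.helper80.PC.JIN
import Pool.Agent.helper70.PC.SEP
import Pool.Agent.helper2.PC.TRF
import Pool.Agent.helper23.PC.HTO
import Pool.Agent.helper31.PC.EXT
import Pool.Agent.helper79.PC.EXP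
import Pool.Agent.helper46.PC.EXK
import Pool.Agent.helper45.PC.PIN
import Pool.Agent.helper13.PC.ASA
import Pool.Agent.helper38.PC.RAM
import Pool.Agent.helper16.PC.XV
import Pool.Agent.helper52.PC.LOG
import Pool.Agent.helper16.PC.LAT
import Pool.Agent.helper16.PC.CONR
import Pool.Agent.helper90.PC.ETA
import Pool.Agent.helper90.PC.PRJ
import Pool.Agent.helper21.PC.KEY
import Pool.Agent.helper80.PC.CEN
import Pool.Agent.helper72.PC.ONE
import Pool.Agent.helper17.PC.FIN
import Pool.Agent.helper51.PC.FIN2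
import Pool.Agent.helper51.PC.Bridge

/-!
# Project pc (MP_74cfa5_ag), Theorem A: assembly of the rows
-/

set_option autoImplicit false

namespace Pool.Agent.PC

universe u

theorem ALL2 : ∀ (n p : ℕ), p.Prime → 5 ≤ p → 2 * p ≤ (n - 1) * (n - 2) →
    ∀ (k : Type u) [Field k] [IsAlgClosed k] [CharP k p],
    ∃ (R : Type u) (_ : CommRing R) (_ : IsDomain R) (_ : Algebra k R), Algebra.FiniteType k R ∧ IsIntegrallyClosed R ∧
      ringKrullDim R = n ∧ ∃ x : R, PltPair.IsPlt k (FractionRing R) R n (Ideal.span {x}) (fun _ => 0) ∧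
        ¬ IsIntegrallyClosed (R ⧸ (Ideal.span {x} : Ideal R)) := by
  have sgk : SGK_stmt.{u} := SGK
  have fgi : FGI_stmt.{u} := FGI sgk
  have nor : NOR_stmt.{u} := NOR
  have dim : DIM_stmt.{u} := DIM
  have sid : SID_stmt.{u} := SID
  have nns : NNS_stmt.{u} := NNS
  have fix : FIX_stmt.{u} := FIX
  have ldv : LDV_stmt.{u} := LDV
  have drv : DRV_stmt.{u} := DRV
  have jin : JIN_stmt.{u} := JIN
  have exp : EXP_stmt.{u} := EXP
  have sep : SEP_stmt.{u} := SEP sgk fix exp
  have trf : TRF_stmt.{u} := TRF sgk fix jin sep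
  have hto : HTO_stmt.{u} := HTO sgk fix jin
  have ext : EXT_stmt.{u} := EXT
  have exk : EXK_stmt.{u} := EXK sgk fgi fix ext sep
  have pin : PIN_stmt.{u} := PIN
  have asa : ASA_stmt.{u} := ASA pin
  have ram : RAM_stmt.{u} := RAM exp
  have xv : XV_stmt.{u} := XV
  have log : LOG_stmt.{u} := LOG exp
  have lat : LAT_stmt.{u} := LAT
  have con : CON_stmt.{u} := CON
  have eta : ETA_stmt.{u} := ETA exp
  have prj : PRJ_stmt.{u} := PRJ
  have key : KEY_stmt.{u} := KEY sgk jin asa ram xv log lat con eta prj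
  have cen : CEN_stmt.{u} := CEN sid
  have one : ONE_stmt.{u} := ONE sgk fgi drv trf hto exk fix key cen
  intro n p hp h5 hnp k _ _ _
  obtain ⟨R, i1, i2, i3, h1, h2, h3, h4, x, h6, h7⟩ := FIN2 sgk fgi nor dim sid nns ldv one fix sep drv n p hp h5 hnp k
  have hn : 0 < n := by
    rcases Nat.eq_zero_or_pos n with h | h
    · rw [h] at hnp
      omega
    · exact h
  exact ⟨R, i1, i2, i3, h1, h2, h3, x, (BR_plt hn h4 _ _).2 ((IsPlt_iff _ _ _).2 h6), h7⟩

end Pool.Agent.PC
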