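import Mathlib

/-!
# Project pc (MP_74cfa5_ag, normality of plt centres): definitions for the statement

`X = Spec R` is an affine normal variety over `k` with function field `K`. A prime divisor `E` over `X` is
given by its local ring `O`, a discrete valuation ring of `K` which contains `R` and whose residue field has
transcendence degree `n - 1` over `k`.
-/

set_option autoImplicit false

namespace Pool.Agent.PC

section general

universe u

variable (k : Type u) [Field k] {K : Type u} [Field K] [Algebra k K]

variable (K) in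
/-- The rational differential forms of degree `n`. -/
abbrev Form (n : ℕ) : Type u := ⋀[K]^n (Ω[K⁄k])

/-- The form `df_1 ∧ ... ∧ df_n`. -/
noncomputable def dd {n : ℕ} (f : Fin n → K) : Form k K n :=
  exteriorPower.ιMulti K n fun i => KaehlerDifferential.D k K (f i)

/-- The forms which are regular along `O`: the `O`-module generated by the `da_1 ∧ ... ∧ da_n` with
`a_i ∈ O`. -/
noncomputable def Reg (n : ℕ) (O : ValuationSubring K) : AddSubgroup (Form k K n) :=
  AddSubgroup.closure {θ | ∃ c ∈ O, ∃ a : Fin n → K, (∀ i, a i ∈ O) ∧ θ = c • dd k a}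

variable {k}

/-- `π` generates the maximal ideal of the valuation ring `O` (of a discrete valuation ring). -/
def IsUnif (O : ValuationSubring K) (π : K) : Prop :=
  π ≠ 0 ∧ ∀ x : K, x ∈ O.nonunits ↔ ∃ y ∈ O, x = π * y

/-- `x` has order `s` along `O`: `x = u π ^ s` with a unit `u` of `O`. -/
def HasOrd (O : ValuationSubring K) (x : K) (s : ℤ) : Prop :=
  ∃ π u : K, IsUnif O π ∧ O.valuation u = 1 ∧ x = u * π ^ s

/-- The form `ω` has order at least `s` along `O`: it is `π ^ s` times a regular form. -/
def OrdGe {n : ℕ} (O : ValuationSubring K) (ω : Form k K n) (s : ℤ) : Prop :=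
  ∃ π : K, IsUnif O π ∧ ∃ ξ ∈ Reg k n O, ω = π ^ s • ξ

/-- The form `ω` has order `s` along `O`. -/
def OrdEq {n : ℕ} (O : ValuationSubring K) (ω : Form k K n) (s : ℤ) : Prop :=
  OrdGe O ω s ∧ ¬ OrdGe O ω (s + 1)

/-- `O` is the local ring `R_P`. -/
def IsLocAt {R : Type u} [CommRing R] [Algebra R K] (P : Ideal R) (O : ValuationSubring K) : Prop :=
  ∀ x : K, x ∈ O ↔ ∃ a s : R, s ∉ P ∧ x = algebraMap R K a / algebraMap R K s

/-- `O` contains `R`, and its centre on `Spec R` is `P`. -/
def IsCenter {R : Type u} [CommRing R] [Algebra R K] (P : Ideal R) (O : ValuationSubring K) : Prop :=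
  ∀ r : R, algebraMap R K r ∈ O ∧ (r ∈ P ↔ algebraMap R K r ∈ O.nonunits)

variable (k) in
/-- `O` is a divisorial valuation ring of `K / k`, where `K` has transcendence degree `n` over `k`: a discrete
valuation ring with `n - 1` elements whose residue classes are algebraically independent over `k`. -/
def Divisorial (n : ℕ) (O : ValuationSubring K) : Prop :=
  IsDiscreteValuationRing O ∧ ∃ a : Fin (n - 1) → K, (∀ i, a i ∈ O) ∧
    ∀ Q : MvPolynomial (Fin (n - 1)) k, Q ≠ 0 → O.valuation (MvPolynomial.aeval a Q) = 1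

open scoped Classical in
variable (k K) in
/-- `(X, S + B)`, `X = Spec R`, is a plt pair of dimension `n`. Here `S` is a prime divisor, given by its
ideal, `B` an effective divisor (`B P` is the coefficient of the prime divisor with the ideal `P`) with
coefficients at most `1` whose support does not contain `S`. `K_X = div ω`; near the closed point `M`,
`m (K_X + S + B) = div g`; and the discrepancy `ord_O ω - (ord_O g) / m` is greater than `-1` for all exceptional
prime divisors `O` over `X` (the centre has height at least `2`). -/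
def Plt (R : Type u) [CommRing R] [Algebra R K] (n : ℕ) (S : Ideal R) (B : Ideal R → ℚ) : Prop :=
  S.IsPrime ∧ S.height = 1 ∧ B S = 0 ∧ (∀ P : Ideal R, 0 ≤ B P ∧ B P ≤ 1) ∧
  {P : Ideal R | P.IsPrime ∧ P.height = 1 ∧ B P ≠ 0}.Finite ∧
  ∃ (ω : Form k K n) (m : ℕ), ω ≠ 0 ∧ 0 < m ∧ ∀ M : Ideal R, M.IsMaximal → ∃ g : K, g ≠ 0 ∧
    (∀ (P : Ideal R) (O : ValuationSubring K), P.IsPrime → P.height = 1 → P ≤ M → IsLocAt P O →
      ∃ s t : ℤ, OrdEq O ω s ∧ HasOrd O g t ∧
        (m : ℚ) * ((s : ℚ) + (if P = S then 1 else 0) + B P) = t) ∧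
    ∀ (P : Ideal R) (O : ValuationSubring K), Divisorial k n O → IsCenter P O → 2 ≤ P.height →
      P ≤ M → ∃ s t : ℤ, OrdGe O ω s ∧ HasOrd O g t ∧ (-1 : ℚ) < (s : ℚ) - (t : ℚ) / m

end general

end Pool.Agent.PC
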