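import Pool.Agent.helper17.PC.FIN
import Pool.Agent.helper2.PC.TRF

/-!
# FIN of project pc with one more conclusion: the dimension of the space of differentials of the fraction field
-/

set_option autoImplicit false

namespace Pool.Agent.PC

open MvPolynomial

universe u

theorem FIN2_rank (hDRV : DRV_stmt.{u}) (hSEP : SEP_stmt.{u}) (k : Type u) [Field k] (n d p : ℕ) (hn : 0 < n)
    (hnum : Num n d p) (hp : CharP k p) : Module.finrank (FF k n d) (Ω[FF k n d⁄k]) = n := by
  obtain ⟨D, hD⟩ := hDRV k n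
  letI : Algebra (FF k n d) (KK k n) := (io k n d).toRingHom.toAlgebra
  have : IsScalarTower k (FF k n d) (KK k n) := IsScalarTower.of_algebraMap_eq fun x => ((io k n d).commutes x).symm
  have : Algebra.IsSeparable (FF k n d) (KK k n) := (hSEP k n d p hnum hp).2
  obtain ⟨e, he⟩ := TRF_basis k n
  exact (TRF_ne k (FF k n d) (KK k n) D hn e (xx k n) he hD).1

/-- FIN with the dimension of the space of differentials -/
theorem FIN2 (hSGK : SGK_stmt.{u}) (hFGI : FGI_stmt.{u}) (hNOR : NOR_stmt.{u}) (hDIM : DIM_stmt.{u})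
    (hSID : SID_stmt.{u}) (hNNS : NNS_stmt.{u}) (hLDV : LDV_stmt.{u}) (hONE : ONE_stmt.{u})
    (hFIX : FIX_stmt.{u}) (hSEP : SEP_stmt.{u}) (hDRV : DRV_stmt.{u}) :
    ∀ (n p : ℕ), p.Prime → 5 ≤ p → 2 * p ≤ (n - 1) * (n - 2) → ∀ (k : Type u) [Field k] [IsAlgClosed k] [CharP k p],
    ∃ (R : Type u) (_ : CommRing R) (_ : IsDomain R) (_ : Algebra k R), Algebra.FiniteType k R ∧ IsIntegrallyClosed R ∧
      ringKrullDim R = n ∧ Module.finrank (FractionRing R) (Ω[FractionRing R⁄k]) = n ∧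
      ∃ x : R, Plt k (FractionRing R) R n (Ideal.span {x}) (fun _ => 0) ∧
        ¬ IsIntegrallyClosed (R ⧸ (Ideal.span {x} : Ideal R)) := by
  intro n p hp h5 h2 k _ _ hchar
  have hnum := FIN_num n p hp h5 h2
  set d := min n p with hd
  have h4 : 4 ≤ d := hnum.2.1
  have hdn : d ≤ n := hnum.2.2.1
  have hn : 0 < n := by omega
  obtain ⟨hft, hint⟩ := hFGI k n d p hnum hchar
  have hnoe : IsNoetherianRing (RR k n d) := Algebra.FiniteType.isNoetherianRing k (RR k n d)
  have hic := hNOR k n d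
  obtain ⟨x, hx0, hxd, hxp, hxh, hxu⟩ := hSID k n d hn hnoe
  obtain ⟨ω, hω, hω1, hω2⟩ := hONE k n d p hn hnum hchar
  have hxne : x ≠ 0 := by
    intro h
    have h1 : (X ⟨0, hn⟩ : AA k n) = 0 := by rw [← hx0, h]; rfl
    exact MvPolynomial.X_ne_zero _ h1
  have hg : algebraMap (RR k n d) (FF k n d) x ≠ 0 := by
    intro h
    exact hxne (IsFractionRing.injective (RR k n d) (FF k n d) (by rw [h, map_zero]))
  refine ⟨RR k n d, inferInstance, inferInstance, inferInstance, hft, hic, hDIM k n d hint,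
    FIN2_rank hDRV hSEP k n d p hn hnum hchar, x, ?_, ?_⟩
  · refine ⟨hxp, hxh, rfl, fun P => ⟨le_rfl, zero_le_one⟩, ?_, ω, 1, hω, one_pos, fun M hM =>
      ⟨algebraMap (RR k n d) (FF k n d) x, hg, ?_, ?_⟩⟩
    · have : {P : Ideal (RR k n d) | P.IsPrime ∧ P.height = 1 ∧ (fun _ => (0 : ℚ)) P ≠ 0} = ∅ := by
        ext P
        simp
      rw [this]
      exact Set.finite_empty
    · -- the divisors on `X`
      intro P O hP hPh hPM hO
      have hdvr := hLDV (RR k n d) (FF k n d) P O hP hPh hO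
      obtain ⟨π, hπ, -⟩ := FIN_unif O hdvr
      have hRO : ∀ r : RR k n d, algebraMap (RR k n d) (FF k n d) r ∈ O := by
        intro r
        rw [hO]
        exact ⟨r, 1, fun h => hP.ne_top ((Ideal.eq_top_iff_one _).2 h), by rw [map_one, div_one]⟩
      have hmem := (hω1 O hdvr hRO).1
      have hord : OrdEq O ω 0 := FIN_ord0 O ω π hπ hmem (hω2 P O hP hO)
      by_cases hPS : P = Ideal.span {x}
      · refine ⟨0, 1, hord, ?_, by rw [if_pos hPS]; norm_num⟩
        exact ⟨algebraMap (RR k n d) (FF k n d) x, 1, FIN_pr P O hP x hxne hPS hO, map_one _, by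
          rw [zpow_one, one_mul]⟩
      · refine ⟨0, 0, hord, ?_, by rw [if_neg hPS]; norm_num⟩
        have hxP : x ∉ P := fun h => hPS (hxu P hP hPh h)
        refine ⟨π, algebraMap (RR k n d) (FF k n d) x, hπ, ?_, by rw [zpow_zero, mul_one]⟩
        refine FIN_one O (hRO x) ?_ hg
        rw [hO]
        exact ⟨1, x, hxP, by rw [map_one, one_div]⟩
    · -- the exceptional divisors
      intro P O hO hcen hPh _
      obtain ⟨π, hπ, hπ2⟩ := FIN_unif O hO.1
      have hmem := (hω1 O hO.1 (fun r => (hcen r).1)).2 P hcen hPh x hx0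
      obtain ⟨u, t, hu, ht⟩ := hπ2 _ hg
      refine ⟨t, t, FIN_ordge O ω π _ u t hπ hg hu ht hmem, ⟨π, u, hπ, hu, ht⟩, ?_⟩
      norm_num
  · exact hNNS k n d h4 hdn x hx0 hxd hxp

end Pool.Agent.PC
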