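import Mathlib

/-!
# Plt pairs (MP_74cfa5_ag), the definitions used in the statements

`X = Spec R` is an affine normal variety over `k` with function field `K`. A prime divisor `E` over `X` is given
by its local ring `O`, a discrete valuation ring of `K` which contains `R` and whose residue field has
transcendence degree `n - 1` over `k`.
-/

set_option autoImplicit false

namespace Pool.Agent.PltPair

universe u

section forms

variable (k : Type u) [Field k] (K : Type u) [Field K] [Algebra k K]

/-- Functions of `n` derivations of the function field `K` (rational vector fields). The rational differential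
forms of degree `n` are some of them, see `IsRational`. -/
abbrev Form (n : ℕ) : Type u := (Fin n → Derivation k K K) → K

variable {K} in
/-- The form `df_1 ∧ ... ∧ df_n`: its value at the derivations `D_1, ..., D_n` is `det (D_j f_i)`. -/
noncomputable def dd {n : ℕ} (f : Fin n → K) : Form k K n :=
  fun D => Matrix.det (Matrix.of fun i j => D j (f i))

variable {K} in
/-- `ω` is a rational differential form: a `K`-linear combination of forms `df_1 ∧ ... ∧ df_n`. -/
def IsRational {n : ℕ} (ω : Form k K n) : Prop := ω ∈ Submodule.span K (Set.range (dd k))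

variable {K} in
/-- The forms which are regular along `O`: the `O`-module generated by the `da_1 ∧ ... ∧ da_n` with
`a_i ∈ O`. -/
noncomputable def Reg (n : ℕ) (O : ValuationSubring K) : AddSubgroup (Form k K n) :=
  AddSubgroup.closure {θ | ∃ c ∈ O, ∃ a : Fin n → K, (∀ i, a i ∈ O) ∧ θ = c • dd k a}

end forms

section ord

variable {k : Type u} [Field k] {K : Type u} [Field K] [Algebra k K]

/-- `π` generates the maximal ideal of the valuation ring `O` (of a discrete valuation ring). -/
def IsUnif (O : ValuationSubring K) (π : K) : Prop :=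
  π ≠ 0 ∧ ∀ x : K, x ∈ O.nonunits ↔ ∃ y ∈ O, x = π * y

/-- `x` has order `s` along `O`: `x = u π ^ s` with a unit `u` of `O`. -/
def HasOrd (O : ValuationSubring K) (x : K) (s : ℤ) : Prop :=
  ∃ π u : K, IsUnif O π ∧ O.valuation u = 1 ∧ x = u * π ^ s

/-- The form `ω` has order at least `s` along `O`: it is `π ^ s` times a regular form. -/
def OrdGe {n : ℕ} (O : ValuationSubring K) (ω : Form k K n) (s : ℤ) : Prop :=
  ∃ π : K, IsUnif O π ∧ ∃ ξ ∈ Reg k n O, ω = π ^ s • ξ

/-- The form `ω` has order `s` along `O`. -/
def OrdEq {n : ℕ} (O : ValuationSubring K) (ω : Form k K n) (s : ℤ) : Prop :=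
  OrdGe O ω s ∧ ¬ OrdGe O ω (s + 1)

variable (k) in
/-- `O` is a divisorial valuation ring of `K / k`, where `K` has transcendence degree `n` over `k`: a discrete
valuation ring with `n - 1` elements whose residue classes are algebraically independent over `k`. -/
def Divisorial (n : ℕ) (O : ValuationSubring K) : Prop :=
  IsDiscreteValuationRing O ∧ ∃ a : Fin (n - 1) → K, (∀ i, a i ∈ O) ∧
    ∀ Q : MvPolynomial (Fin (n - 1)) k, Q ≠ 0 → O.valuation (MvPolynomial.aeval a Q) = 1

end ord

section pair

variable {k : Type u} [Field k] {K : Type u} [Field K] [Algebra k K] {R : Type u} [CommRing R]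
  [Algebra R K]

/-- `O` is the local ring `R_P`. -/
def IsLocAt (P : Ideal R) (O : ValuationSubring K) : Prop :=
  ∀ x : K, x ∈ O ↔ ∃ a s : R, s ∉ P ∧ x = algebraMap R K a / algebraMap R K s

/-- `O` contains `R`, and its centre on `Spec R` is `P`. -/
def IsCenter (P : Ideal R) (O : ValuationSubring K) : Prop :=
  ∀ r : R, algebraMap R K r ∈ O ∧ (r ∈ P ↔ algebraMap R K r ∈ O.nonunits)

/-- `S` is a prime divisor and `B` an effective divisor with coefficients at most `1` whose support is finite and
does not contain `S`. Prime divisors are given by their ideals, `B P` is the coefficient of the divisor of `P`. -/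
def Boundary (S : Ideal R) (B : Ideal R → ℚ) : Prop :=
  S.IsPrime ∧ S.height = 1 ∧ B S = 0 ∧ (∀ P : Ideal R, 0 ≤ B P ∧ B P ≤ 1) ∧
  {P : Ideal R | P.IsPrime ∧ P.height = 1 ∧ B P ≠ 0}.Finite

open scoped Classical in
/-- `m (div ω + S + B) = div g` near the closed point `M`: for all prime divisors through `M`, with the ideal `P`
and the local ring `O = R_P`. -/
def CartierAt {n : ℕ} (S : Ideal R) (B : Ideal R → ℚ) (ω : Form k K n) (m : ℕ) (M : Ideal R) (g : K) :
    Prop :=
  ∀ (P : Ideal R) (O : ValuationSubring K), P.IsPrime → P.height = 1 → P ≤ M → IsLocAt P O →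
    ∃ s t : ℤ, OrdEq O ω s ∧ HasOrd O g t ∧
      (m : ℚ) * ((s : ℚ) + (if P = S then 1 else 0) + B P) = t

variable (R) in
/-- `ord_O ω - (ord_O g) / m > -1` for all exceptional prime divisors `O` over `X = Spec R` (the centre `P` has
height at least `2`) with `P ≤ M`. -/
def DiscrAt {n : ℕ} (ω : Form k K n) (m : ℕ) (M : Ideal R) (g : K) : Prop :=
  ∀ (P : Ideal R) (O : ValuationSubring K), Divisorial k n O → IsCenter P O → 2 ≤ P.height →
    P ≤ M → ∃ s t : ℤ, OrdGe O ω s ∧ HasOrd O g t ∧ (-1 : ℚ) < (s : ℚ) - (t : ℚ) / m

variable (k K R) in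
/-- `(X, S + B)`, `X = Spec R`, is a plt pair of dimension `n`: `K_X = div ω` for a rational form `ω` of degree
`n`, `m (K_X + S + B) = div g` near the closed point `M`, and the discrepancies of all exceptional prime divisors
are greater than `-1`. -/
def IsPlt (n : ℕ) (S : Ideal R) (B : Ideal R → ℚ) : Prop :=
  Boundary S B ∧ ∃ (ω : Form k K n) (m : ℕ), IsRational k ω ∧ ω ≠ 0 ∧ 0 < m ∧
    ∀ M : Ideal R, M.IsMaximal → ∃ g : K, g ≠ 0 ∧ CartierAt S B ω m M g ∧ DiscrAt R ω m M g

end pair

end Pool.Agent.PltPair
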