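import Pool.Agent.helper51.PC.Defs

/-!
# Project pc (MP_74cfa5_ag): non-normal plt centres in dimension about the square root of `2 p`

THEOREM A. `p ≥ 5` prime, `2 p ≤ (n - 1)(n - 2)`, `k` algebraically closed of characteristic `p`: there is a plt pair
`(Spec R, S)` of dimension `n` over `k` with `S` not normal (`S` is principal and `K_X ~ 0`).

`d = min n p`. `A = k[x_0, ..., x_(n-1)]`, `σ x_i = x_i + x_(i-1)` for `0 < i < d`, `σ x_i = x_i` for the other `i`; `σ ^ p = 1`.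
`R = A^σ`, `S = (x_0)`. `K = Frac A` (`KK`), `F = Frac R` (`FF`) is the fixed field of `σ` on `K`, `ι : F → K` (`io`).
`a = x_1 / x_0`: `σ a = a + 1`.

Differential forms: `D j = ∂/∂x_j` on `K`, `JJ D f = det (D j (f i))`. The forms of degree `n` of `F` are identified with (a part of) `K` by
`df_1 ∧ ... ∧ df_n ↦ JJ D (ι f)` (TRF); `ω` corresponds to `1`. So the claim is: for every DVR `O'` of `F` which contains `R`, `1 ∈ JO`
(`JO` = the `O'`-module generated by the `JJ D f`, `f_i ∈ O'`), and `1 / x_0 ∈ JO` if the centre of `O'` is not `(x_0)`.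

Let `v` be a discrete valuation of `K` over `O'` (EXT). `O' = {x ∈ F : v x ≥ 0}` (`OF`). Case (i): `v (a - b) ≥ 0` for some `b ∈ F`; then `O'` is étale
in `v` (ETA), and `1 / x_0` is in the module of `v` by an elementary computation in `A` (PRJ). Case (ii): choose `b ∈ F` with
`v (a - b) = - m` maximal, `m > 0`; `a* = a - b` has the property NB: `v (∑_{i<p} c_i a*^i) ≤ v (c_i a*^i)` for `c_i ∈ F` (ASA). So
`v (σ y - y) ≥ v y + m` (RAM), `v (x_i) ≥ (d - 1 - i) m` and `v (x_1 ⋯ x_(n-1)) ≥ m (d-1)(d-2)/2 ≥ p m` (XV). `D a* = - D c*`, `c* = a*^p - a* ∈ F`, `v c* = - p m`,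
so every `D y / y` is a combination of `D c / c` (`c ∈ F`) with coefficients of value `≥ 0` and of `D c* / c*` with coefficient of value `≥ - (p - 1) m`
(LOG). Hence `1 / x_0 = (∏_{i ≥ 1} x_i) (JJ x / ∏ x_i)` is a combination of the `JJ f / ∏ f_i`, `f_i ∈ F`, with coefficients of value `≥ m`, and these are in
`π'^(-1) JO` (LAT). As `m > 0`, `1 / x_0 ∈ JO` (CON).

RULES. Row `pc:XX`: prove `theorem XX (hYY : YY_stmt.{u}) ... : XX_stmt.{u}` (other rows of this file only as hypotheses) in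
`Pool/Agent/<seat>/PC/XX.lean`, `import Pool.Agent.helper51.PC.Spec`, `namespace Pool.Agent.PC`, `universe u`, auxiliary lemmas with the prefix `XX_`. No
double quotes, no convert / congr!, no native_decide. One line to helper51 when DONE; doubts about a statement at once.
-/

set_option autoImplicit false

namespace Pool.Agent.PC

open MvPolynomial

universe u

/-! ### discrete valuations as functions -/

section val

variable {K : Type u} [Field K]

/-- `v` is a normalised discrete valuation of `K` (the value at `0` is irrelevant). -/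
structure DVal (v : K → ℤ) : Prop where
  mul : ∀ x y : K, x ≠ 0 → y ≠ 0 → v (x * y) = v x + v y
  add : ∀ x y : K, x ≠ 0 → y ≠ 0 → x + y ≠ 0 → min (v x) (v y) ≤ v (x + y)
  one : ∃ x : K, x ≠ 0 ∧ v x = 1

/-- `y` has value at least `r`. -/
def Ge (v : K → ℤ) (r : ℤ) (y : K) : Prop := y = 0 ∨ r ≤ v y

/-- The valuation ring of the fixed field. -/
def OF (s : K →+* K) (v : K → ℤ) : Set K := {x | s x = x ∧ Ge v 0 x}

/-- `w` has minimal positive value in the fixed field. -/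
def IsUF (s : K →+* K) (v : K → ℤ) (w : K) : Prop :=
  w ≠ 0 ∧ s w = w ∧ 0 < v w ∧ ∀ x : K, x ≠ 0 → s x = x → v w ∣ v x

/-- `b` is integral over the valuation ring of the fixed field. -/
def IntS (s : K →+* K) (v : K → ℤ) (b : K) : Prop :=
  ∃ P : Polynomial K, P.Monic ∧ (∀ i, P.coeff i ∈ OF s v) ∧ P.eval b = 0

/-- Every element of the valuation ring is a fraction of integral elements with denominator a unit. -/
def Loc (s : K →+* K) (v : K → ℤ) : Prop :=
  ∀ y : K, Ge v 0 y → ∃ b c : K, IntS s v b ∧ IntS s v c ∧ c ≠ 0 ∧ v c = 0 ∧ y = b / c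

/-- The property NB of `a` (`c_i` in the fixed field). -/
def NB (p : ℕ) (s : K →+* K) (v : K → ℤ) (a : K) : Prop :=
  ∀ c : Fin p → K, (∀ i, s (c i) = c i) → ∀ r : ℤ, Ge v r (∑ i, c i * a ^ (i : ℕ)) →
    ∀ i, Ge v r (c i * a ^ (i : ℕ))

variable {k : Type u} [Field k] [Algebra k K] {n : ℕ}

/-- Jacobian determinant. -/
noncomputable def JJ (D : Fin n → Derivation k K K) (f : Fin n → K) : K :=
  Matrix.det (Matrix.of fun i j => D j (f i))

/-- The module generated by the `JJ D f`, `f_i` in the valuation ring of the fixed field. -/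
def JO (D : Fin n → Derivation k K K) (s : K →+* K) (v : K → ℤ) : AddSubgroup K :=
  AddSubgroup.closure {y | ∃ c ∈ OF s v, ∃ f : Fin n → K, (∀ i, f i ∈ OF s v) ∧ y = c * JJ D f}

/-- The sums of the `o j`, `v o ≥ r`, `j ∈ J`. -/
def Sp (v : K → ℤ) (r : ℤ) (J : Set K) : AddSubgroup K :=
  AddSubgroup.closure {y | ∃ o : K, Ge v r o ∧ ∃ j ∈ J, y = o * j}

/-- The logarithmic Jacobians of elements of the fixed field. -/
def LL (D : Fin n → Derivation k K K) (s : K →+* K) : Set K :=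
  {y | ∃ f : Fin n → K, (∀ i, f i ≠ 0 ∧ s (f i) = f i) ∧ y = JJ D f / ∏ i, f i}

end val

/-! ### the example -/

section ex

variable (k : Type u) [Field k] (n d : ℕ)

/-- `k[x_0, ..., x_(n-1)]` -/
abbrev AA : Type u := MvPolynomial (Fin n) k

/-- its fraction field -/
abbrev KK : Type u := FractionRing (AA k n)

/-- the automorphism -/
noncomputable def sg : AA k n →ₐ[k] AA k n :=
  aeval fun i : Fin n => X i + if h : 0 < (i : ℕ) ∧ (i : ℕ) < d then
    X ⟨(i : ℕ) - 1, by omega⟩ else 0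

/-- the invariants -/
noncomputable def RR : Subalgebra k (AA k n) := AlgHom.equalizer (sg k n d) (AlgHom.id k (AA k n))

/-- the fraction field of the ring of invariants -/
abbrev FF : Type u := FractionRing (RR k n d)

/-- `ι : F → K` -/
noncomputable def io : FF k n d →ₐ[k] KK k n :=
  IsFractionRing.liftAlgHom (g := (IsScalarTower.toAlgHom k (AA k n) (KK k n)).comp (RR k n d).val)
    (by
      intro x y h
      exact Subtype.ext (IsFractionRing.injective (AA k n) (KK k n) h))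

/-- the variables, as elements of `K` -/
noncomputable def xx (i : Fin n) : KK k n := algebraMap (AA k n) (KK k n) (X i)

/-- the partial derivatives -/
def IsPar (D : Fin n → Derivation k (KK k n) (KK k n)) : Prop :=
  ∀ i j, D i (xx k n j) = if i = j then 1 else 0

/-- `s` is the extension of `σ` to `K`. -/
def IsSg (s : KK k n →+* KK k n) : Prop :=
  ∀ f : AA k n, s (algebraMap (AA k n) (KK k n) f) = algebraMap (AA k n) (KK k n) (sg k n d f)

/-- The conditions on `n`, `d`, `p`. -/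
def Num (n d p : ℕ) : Prop := p.Prime ∧ 4 ≤ d ∧ d ≤ n ∧ d ≤ p ∧ 2 * p ≤ (d - 1) * (d - 2)

end ex

/-! ### part 1: the ring of invariants and its geometry -/

/-- **SGK** (short to medium). `σ ^ p = 1`: `N = σ - 1` is nilpotent on the span of the variables, `N ^ d = 0`, `d ≤ p`, and
`σ ^ p = 1 + N ^ p` (characteristic `p`; for example `(Module.End)`, `add_pow_char`/`sub_pow_char`, or `Commute.add_pow`). So `σ` is injective and extends
to `K`. `v` does not occur. -/
def SGK_stmt : Prop := ∀ (k : Type u) [Field k] (n d p : ℕ), Num n d p → CharP k p →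
  (∀ f : AA k n, (sg k n d)^[p] f = f) ∧
  ∃ s : KK k n →+* KK k n, IsSg k n d s ∧ (∀ y, s^[p] y = y) ∧ ∀ c : k, s (algebraMap k (KK k n) c) = algebraMap k (KK k n) c

/-- **FGI** (medium; from SGK). `A` is integral over `R` (`∏_{i<p} (T - σ^i f)`; the coefficients are invariant), so `R` is finitely generated (Artin-Tate:
`Subalgebra.fg_of_fg_of_fg`, or `fg_of_fg_of_fg` in `Mathlib/RingTheory/Adjoin/Tower.lean`). -/
def FGI_stmt : Prop := ∀ (k : Type u) [Field k] (n d p : ℕ), Num n d p → CharP k p →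
  Algebra.FiniteType k (RR k n d) ∧ Algebra.IsIntegral (RR k n d) (AA k n)

/-- **NOR** (short to medium; no hypotheses). An element `a / b` of `Frac R` integral over `R` is, in `Frac A`, integral over the normal ring `A`, so `a = b c`, `c ∈ A`, and `c` is
invariant. -/
def NOR_stmt : Prop := ∀ (k : Type u) [Field k] (n d : ℕ), IsIntegrallyClosed (RR k n d)

/-- **DIM** (medium). Krull dimension of an integral extension: `comap` is strictly monotone (incomparability), and chains of primes of `R` can be lifted (going up).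
`MvPolynomial.ringKrullDim_of_isNoetherianRing`. -/
def DIM_stmt : Prop := ∀ (k : Type u) [Field k] (n d : ℕ), Algebra.IsIntegral (RR k n d) (AA k n) →
  ringKrullDim (RR k n d) = n

/-- **SID** (medium). `x_0 A ∩ R = x_0 R`, because `x_0 f` invariant implies `f` invariant. So `S` is prime; its height is `1` by Krull's theorem (`R` is noetherian), as `x_0 ≠ 0`.
Last part: if `x_0 ∈ P` then `S ≤ P`, equality because of the heights. -/
def SID_stmt : Prop := ∀ (k : Type u) [Field k] (n d : ℕ) (hn : 0 < n), IsNoetherianRing (RR k n d) →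
  ∃ x : RR k n d, (x : AA k n) = X ⟨0, hn⟩ ∧ (∀ r : RR k n d, r ∈ Ideal.span {x} ↔ (X ⟨0, hn⟩ : AA k n) ∣ r) ∧
    (Ideal.span {x} : Ideal (RR k n d)).IsPrime ∧ (Ideal.span {x} : Ideal (RR k n d)).height = 1 ∧
    ∀ P : Ideal (RR k n d), P.IsPrime → P.height = 1 → x ∈ P → P = Ideal.span {x}

/-- **NNS** (medium). Not normal. `Q = x_1² - 2 x_0 x_2 - x_0 x_1`, `T = x_1 x_2 - 3 x_0 x_3 - 2 x_0 x_2`: `σ T - T = Q` and `σ Q = Q`. `G = x_1 Q - x_0 T` is invariant. Modulo `x_0`: `Q ≡ x_1²`,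
`G ≡ x_1³`. If `R / (x_0)` were normal, there would be `h ∈ R` with `h Q ≡ G` modulo `x_0` (the element `G / Q` of the fraction field has the square `Q`), so `h ≡ x_1` modulo `x_0 A`. But the
linear part of an invariant is an invariant linear form (`σ` maps forms of degree `e` to forms of degree `e`), and the coefficient of `x_1` in it is `0`: in `σ h` the coefficient of `x_0` is
(coefficient of `x_0`) + (coefficient of `x_1`). (`1 ≤ 3 < d`.) -/
def NNS_stmt : Prop := ∀ (k : Type u) [Field k] (n d : ℕ) (h4 : 4 ≤ d) (hn : d ≤ n) (x : RR k n d),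
  (x : AA k n) = X ⟨0, by omega⟩ → (∀ r : RR k n d, r ∈ Ideal.span {x} ↔ (X ⟨0, by omega⟩ : AA k n) ∣ r) →
  (Ideal.span {x} : Ideal (RR k n d)).IsPrime → ¬ IsIntegrallyClosed (RR k n d ⧸ (Ideal.span {x} : Ideal (RR k n d)))

/-- **FIX** (short to medium). `y = f / g` with `s y = y`: multiply numerator and denominator by `∏_{0<i<p} σ^i g`; the denominator is invariant, so the numerator too. -/
def FIX_stmt : Prop := ∀ (k : Type u) [Field k] (n d p : ℕ), Num n d p → (∀ f : AA k n, (sg k n d)^[p] f = f) →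
  ∀ s : KK k n →+* KK k n, IsSg k n d s → ∀ y : KK k n, s y = y ↔ ∃ x : FF k n d, io k n d x = y

/-- **LDV** (short to medium). The localisation of a normal noetherian domain at a prime of height `1` is a discrete valuation ring (`IsDiscreteValuationRing` TFAE in
`Mathlib/RingTheory/DiscreteValuationRing/TFAE.lean`); `O` is isomorphic to `Localization.AtPrime P`. -/
def LDV_stmt : Prop := ∀ (R K : Type u) [CommRing R] [IsDomain R] [IsNoetherianRing R] [IsIntegrallyClosed R] [Field K]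
  [Algebra R K] [IsFractionRing R K] (P : Ideal R) (O : ValuationSubring K), P.IsPrime → P.height = 1 → IsLocAt P O →
  IsDiscreteValuationRing O

/-! ### part 2: differential forms -/

/-- **DRV** (medium). The derivations `pderiv j` of `A` extend to `K` (for example through `Ω`: `K` is formally étale over `A`, or `Derivation.liftOfSurjective`.., or define
`D (f / g) = (g D f - f D g) / g²`). -/
def DRV_stmt : Prop := ∀ (k : Type u) [Field k] (n : ℕ), ∃ D : Fin n → Derivation k (KK k n) (KK k n), IsPar k n D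

/-- **JIN** (medium). If the `f_i` are invariant, so is `JJ D f`. `s⁻¹ ∘ D j ∘ s` is a derivation of `K` over `k`, hence equal to `∑_l c_jl D l` with `c_jl` its value at `x_l`: a derivation is determined by its values at the
`x_l`. Or: for all `f`, `D j (s f) = ∑_l D j (s x_l) s (D l f)` (both sides are derivations along `s`, equal for `f = x_i`), so `JJ D (s f) = det (D j (s x_l)) · s (JJ D f)`, and the matrix `D j (s x_l)` is unipotent triangular. -/
def JIN_stmt : Prop := ∀ (k : Type u) [Field k] (n d : ℕ) (D : Fin n → Derivation k (KK k n) (KK k n)), IsPar k n D →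
  ∀ s : KK k n →+* KK k n, IsSg k n d s → (∀ c : k, s (algebraMap k (KK k n) c) = algebraMap k (KK k n) c) →
  ∀ f : Fin n → KK k n, (∀ i, s (f i) = f i) → s (JJ D f) = JJ D f

/-- **TRF** (medium to long; from SGK, FIX, JIN, SEP). The alternating map `(df_1, ..., df_n) ↦ JJ D (ι f)` of `Ω[F⁄k]` (the derivation `D j ∘ ι : F → K` gives a linear map `Ω[F⁄k] → K`) defines an `F`-linear map
`Ψ : ⋀^n Ω[F⁄k] → K` (`exteriorPower.alternatingMapLinearEquiv`). `dim_F Ω[F⁄k] ≤ n`: `K / F` is finite and separable (SEP), so `K ⊗_F Ω[F⁄k] ≃ Ω[K⁄k]` (`K` is formally étale over `F`), and `Ω[K⁄k]` is generated by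
the `n` elements `dx_i`. So `⋀^n Ω[F⁄k]` has dimension `≤ 1`. `Ψ ≠ 0`: the image of `Ω[F⁄k]` generates `Ω[K⁄k]` over `K`, so some `JJ D (ι f) ≠ 0` (`f : Fin n → F`). Hence `Ψ` is injective; `JJ D (ι f) ∈ ι F`
(JIN, FIX), and `ω' = (JJ D (ι f))⁻¹ df_1 ∧ ... ∧ df_n` has `Ψ ω' = 1`. -/
def TRF_stmt : Prop := ∀ (k : Type u) [Field k] (n d p : ℕ), Num n d p → CharP k p →
  ∀ D : Fin n → Derivation k (KK k n) (KK k n), IsPar k n D →
  ∃ ω : Form k (FF k n d) n, ω ≠ 0 ∧ ∀ (O : ValuationSubring (FF k n d)) (x : FF k n d),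
    x • ω ∈ Reg k n O ↔ io k n d x ∈ AddSubgroup.closure {y : KK k n | ∃ c ∈ O, ∃ f : Fin n → FF k n d,
      (∀ i, f i ∈ O) ∧ y = io k n d c * JJ D fun i => io k n d (f i)}

/-- **HTO** (short to medium; from SGK, FIX, JIN). For `O = R_P`: the `ι f_i` are in the ring `A_(R ∖ P)` of the fractions `f / g`, `f ∈ A`, `g ∈ R ∖ P`, which is stable under the `D j` (quotient rule); so `JJ D (ι f) = f / g` is in it, and it is invariant, so `f ∈ R`. -/
def HTO_stmt : Prop := ∀ (k : Type u) [Field k] (n d p : ℕ), Num n d p → CharP k p →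
  ∀ D : Fin n → Derivation k (KK k n) (KK k n), IsPar k n D → ∀ (P : Ideal (RR k n d)) (O : ValuationSubring (FF k n d)),
    P.IsPrime → IsLocAt P O → ∀ f : Fin n → FF k n d, (∀ i, f i ∈ O) → ∃ x ∈ O, io k n d x = JJ D fun i => io k n d (f i)

/-! ### part 3: the extension of valuations and Artin-Schreier theory -/

/-- **EXT** (medium). `B` = the integral closure of `O` in `K`, a Dedekind domain (`integralClosure.isDedekindDomain`), finite over `O`; take a maximal ideal of `B` (over the maximal ideal of `O`), `v` its valuation on `K`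
(`IsDedekindDomain.HeightOneSpectrum.valuation`, or the additive valuation of the localisation, a DVR). An element `y` with `v y ≥ 0` is in the localisation. If `x ∈ F ∖ O` then `x⁻¹` is in the maximal ideal of `O`, so `v x < 0`. -/
def EXT_stmt : Prop := ∀ (F K : Type u) [Field F] [Field K] [Algebra F K] [FiniteDimensional F K] [Algebra.IsSeparable F K]
  (O : ValuationSubring F), IsDiscreteValuationRing O → ∃ v : K → ℤ, DVal v ∧
    (∀ x : F, x ∈ O ↔ Ge v 0 (algebraMap F K x)) ∧ (∃ x : F, x ≠ 0 ∧ 0 < v (algebraMap F K x)) ∧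
    ∀ y : K, Ge v 0 y → ∃ b c : K,
      (∃ P : Polynomial F, P.Monic ∧ (∀ i, P.coeff i ∈ O) ∧ Polynomial.aeval b P = 0) ∧
      (∃ P : Polynomial F, P.Monic ∧ (∀ i, P.coeff i ∈ O) ∧ Polynomial.aeval c P = 0) ∧
      c ≠ 0 ∧ v c = 0 ∧ y = b / c

/-- **EXP** (short). `N = s - 1`, `N ^ p = s ^ p - 1 = 0`. By induction on `j ≤ p`: if `N ^ j y = 0` then `y` is a polynomial of degree `< j` in `a` with fixed coefficients: `c = N^j y` is fixed for `N^(j+1) y = 0`, and
`N^j (a ^ j) = j!` (`j < p`), `N ^ j (y - c (j!)⁻¹ a ^ j) = 0`. -/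
def EXP_stmt : Prop := ∀ (K : Type u) [Field K] (p : ℕ) [Fact p.Prime] [CharP K p] (s : K →+* K), (∀ y, s^[p] y = y) →
  ∀ a : K, s a = a + 1 → ∀ y : K, ∃ c : Fin p → K, (∀ i, s (c i) = c i) ∧ y = ∑ i, c i * a ^ (i : ℕ)

/-- **SEP** (short to medium; from SGK, FIX, EXP). `K / F` is finite and separable: `K = F(a)` with `a = x_1 / x_0` (EXP, FIX), and `a` is a root of the separable polynomial `T^p - T - (a^p - a)` (derivative `-1`). -/
def SEP_stmt : Prop := ∀ (k : Type u) [Field k] (n d p : ℕ), Num n d p → CharP k p →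
  letI := (io k n d).toRingHom.toAlgebra
  FiniteDimensional (FF k n d) (KK k n) ∧ Algebra.IsSeparable (FF k n d) (KK k n)

/-- **EXK** (short to medium; from SGK, FGI, FIX, EXT, SEP). Translation of EXT. For `IsUF`: the values of the fixed elements form a subgroup of `ℤ`, not `0`, generated by its smallest positive element. The last item: the `x_i` are integral over `R`
(FGI), so over `O`, so they have values `≥ 0`; constants `c ≠ 0` and their inverses are in `R`. -/
def EXK_stmt : Prop := ∀ (k : Type u) [Field k] (n d p : ℕ), Num n d p → CharP k p →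
  ∀ s : KK k n →+* KK k n, IsSg k n d s → ∀ O : ValuationSubring (FF k n d), IsDiscreteValuationRing O →
  (∀ r : RR k n d, algebraMap (RR k n d) (FF k n d) r ∈ O) →
  ∃ v : KK k n → ℤ, DVal v ∧ (∀ x : FF k n d, x ∈ O ↔ Ge v 0 (io k n d x)) ∧ (∃ w, IsUF s v w) ∧ Loc s v ∧
    (∀ i, Ge v 0 (xx k n i)) ∧ ∀ c : k, c ≠ 0 → v (algebraMap k (KK k n) c) = 0

/-- **PIN** (short). The minimal polynomial of `τ` over `κ₀` divides `T^p - τ^p = (T - τ)^p`, so it is `(T - τ)^r`, `1 ≤ r < p`, and its coefficient `- r τ` of degree `r - 1` is in `κ₀`. -/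
def PIN_stmt : Prop := ∀ (κ₀ κ : Type u) [Field κ₀] [Field κ] [Algebra κ₀ κ] (p : ℕ) [Fact p.Prime] [CharP κ p] (τ : κ),
  (∃ y : κ₀, algebraMap κ₀ κ y = τ ^ p) → (∃ P : Polynomial κ₀, P ≠ 0 ∧ P.natDegree < p ∧ Polynomial.aeval τ P = 0) →
  ∃ y : κ₀, algebraMap κ₀ κ y = τ

/-- **ASA** (medium to long; from PIN). If `v (a - b) < 0` for all fixed `b`, let `v (a - b) = - m` be maximal, `A = a - b` (`s A = A + 1`). Let `c_i` be fixed, `μ = min v (c_i A^i) < r ≤ v (∑ c_i A^i)`, `I` the set of the `i` with `v (c_i A^i) = μ`; `|I| ≥ 2`.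
`f = A^p - A` is fixed (`s f = f`), `v f = p v A`. If `v A ≠ v b'` for all fixed `b' ≠ 0`: for `i ≠ j` in `I`, `(j - i) v A = v (c_i / c_j)` and `p v A = v f` are values of fixed elements, and `gcd (j - i, p) = 1`, so `v A` is one, a contradiction.
Otherwise `v A = v b'`, `t = A / b'`, `v t = 0`. In the residue field `κ` of `v`, with the image `κ_0` of `{x fixed, v x ≥ 0}` (a subfield): the residue class `τ` of `t` satisfies a nontrivial equation of degree `< p` over `κ_0` (divide `∑ c_i A^i` by `c_j b'^j`, `j ∈ I`), and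
`τ^p ∈ κ_0` (`t^p - b'^(1-p) t = f / b'^p`, `v (b'^(1-p)) = (p-1) m > 0`). So `τ ∈ κ_0` (PIN): there is a fixed `g` with
`v (t - g) > 0`, and `v (a - (b + b' g)) = v (A - b' g) > v A`, a contradiction to the choice of `b`. -/
def ASA_stmt : Prop := ∀ (K : Type u) [Field K] (p : ℕ) [Fact p.Prime] [CharP K p] (s : K →+* K) (v : K → ℤ), DVal v →
  ∀ a : K, s a = a + 1 → (∃ b : K, s b = b ∧ Ge v 0 (a - b)) ∨
    ∃ (b : K) (m : ℤ), s b = b ∧ 0 < m ∧ a - b ≠ 0 ∧ v (a - b) = -m ∧ NB p s v (a - b)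

/-- **RAM** (short; from EXP). `y = ∑ c_i a^i`, `Ge v r (c_i a^i)` by NB, `s y - y = ∑ c_i ((a+1)^i - a^i) = ∑_{l < i} (i choose l) c_i a^l`, and `c_i a^l = c_i a^i (a⁻¹)^(i-l)`. -/
def RAM_stmt : Prop := ∀ (K : Type u) [Field K] (p : ℕ) [Fact p.Prime] [CharP K p] (s : K →+* K) (v : K → ℤ), DVal v →
  (∀ y, s^[p] y = y) → ∀ (a : K) (m : ℤ), s a = a + 1 → a ≠ 0 → 0 < m → v a = -m → NB p s v a →
  ∀ (r : ℤ) (y : K), Ge v r y → Ge v (r + m) (s y - y)

/-- **XV** (short to medium). `s x_i - x_i = x_(i-1)` for `0 < i < d`, so `v (x_i) ≥ (d - 1 - i) m` by descending induction; the product (over `i > 0`) has value `≥ m ∑_{0<i<d} (d - 1 - i) = m (d-1)(d-2)/2 ≥ m p`. -/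
def XV_stmt : Prop := ∀ (k : Type u) [Field k] (n d p : ℕ) (hn : 0 < n), Num n d p → ∀ s : KK k n →+* KK k n, IsSg k n d s →
  ∀ v : KK k n → ℤ, DVal v → (∀ i, Ge v 0 (xx k n i)) → ∀ m : ℤ, 0 < m →
  (∀ (r : ℤ) (y : KK k n), Ge v r y → Ge v (r + m) (s y - y)) →
  Ge v (p * m) (∏ i ∈ Finset.univ.erase (⟨0, hn⟩ : Fin n), xx k n i)

/-! ### part 4: determinants -/

/-- **LOG** (medium; from EXP). `f = a^p - a` is fixed, `v f = - p m`, `D a = - D f` (`D (a^p) = 0`). `y_i = ∑ c_ij a^j` with fixed `c_ij`, `v (c_ij a^j) ≥ v y_i` (NB), so `D_l y_i / y_i = ∑_j (c_ij a^j / y_i) (D_l c_ij / c_ij) - (∑_j j c_ij a^(j-1) / y_i) f (D_l f / f)`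
(sum over the `c_ij ≠ 0`); the first coefficients have value `≥ 0`, the last one value `≥ m - p m`. Expand the determinant of the rows `D y_i / y_i` multilinearly: the terms with two rows `D f / f` vanish. -/
def LOG_stmt : Prop := ∀ (k K : Type u) [Field k] [Field K] [Algebra k K] (n p : ℕ) [Fact p.Prime] [CharP K p]
  (D : Fin n → Derivation k K K) (s : K →+* K) (v : K → ℤ), DVal v → (∀ y, s^[p] y = y) →
  ∀ (a : K) (m : ℤ), s a = a + 1 → a ≠ 0 → 0 < m → v a = -m → NB p s v a →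
  ∀ y : Fin n → K, (∀ i, y i ≠ 0) → JJ D y / ∏ i, y i ∈ Sp v (-((p : ℤ) - 1) * m) (LL D s)

/-- **LAT** (short to medium). `f_i = w ^ (e_i) u_i` with `e_i ∈ ℤ`, `u_i` fixed of value `0` (`v w ∣ v f_i`); `D f_i / f_i = e_i D w / w + D u_i / u_i`; multilinear expansion: at most one row `D w / w`; `u_i`, `u_i⁻¹`, `w` are in `OF s v`. -/
def LAT_stmt : Prop := ∀ (k K : Type u) [Field k] [Field K] [Algebra k K] (n : ℕ)
  (D : Fin n → Derivation k K K) (s : K →+* K) (v : K → ℤ), DVal v → ∀ w : K, IsUF s v w →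
  ∀ y ∈ LL D s, w * y ∈ JO D s v

/-- **CON** (short). Suppose `z ∉ J`. For `j ∈ J`, `j ≠ 0`: if `v (j / z) ≤ 0` then `z / j ∈ OF s v` and `z = (z / j) j ∈ J`; so `v (j / z) > 0`, hence `≥ v w`. So all elements of `Sp v r J` have value `≥ r + v w + v z > v (b z)`. -/
def CON_stmt : Prop := ∀ (K : Type u) [Field K] (s : K →+* K) (v : K → ℤ), DVal v → ∀ w : K, IsUF s v w →
  ∀ J : AddSubgroup K, (∀ j ∈ J, s j = j) → (∀ c ∈ OF s v, ∀ j ∈ J, c * j ∈ J) →
  ∀ (z b : K) (r : ℤ), z ≠ 0 → s z = z → b ≠ 0 → s b = b → v b - v w < r → b * z ∈ Sp v r J → z ∈ J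

/-- **ETA** (medium; from EXP). The étale case. `f = a^p - a` is fixed, `v f ≥ 0`. An integral element `b` (IntS) is `∑_{j<p} c_j a^j` with `c_j ∈ OF s v`: `(s - 1)^(p-1) b = (p-1)! c_(p-1)` is integral (`s` maps integral elements to integral elements), a fixed integral element has
value `≥ 0`; subtract `c_(p-1) a^(p-1)` and go on. So `D b = ∑ a^j D c_j - (∑ j c_j a^(j-1)) D f`. For `v y ≥ 0`: `y = b / c` (Loc), `D y = (c D b - b D c) / c²`, a combination of the `D e`, `e ∈ OF s v`, with coefficients of value `≥ 0` (`b`, `c` have values `≥ 0`). Multilinear expansion. -/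
def ETA_stmt : Prop := ∀ (k K : Type u) [Field k] [Field K] [Algebra k K] (n p : ℕ) [Fact p.Prime] [CharP K p]
  (D : Fin n → Derivation k K K) (s : K →+* K) (v : K → ℤ), DVal v → (∀ y, s^[p] y = y) → Loc s v →
  ∀ a : K, s a = a + 1 → Ge v 0 a →
  ∀ y : Fin n → K, (∀ i, Ge v 0 (y i)) → JJ D y ∈ Sp v 0 (JO D s v : Set K)

/-- **PRJ** (medium). `J` = the sums of the `c JJ D y` with `v c, v (y_i) ≥ 0`. `JJ D x = 1`. If `v (x_0) = 0` then `x_0⁻¹ = x_0⁻¹ JJ D x`. Let `v (x_0) = e > 0`, `v w = 1`, `x_0 = w^e u`: `x_0⁻¹ JJ D (x_0, x_1, ...) = e w⁻¹ JJ D (w, x_1, ...) + u⁻¹ JJ D (u, x_1, ...)`, the second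
term is in `J`. Choose `P ≠ 0` without `x_0`, `v P > 0`, of minimal total degree. Some `∂P/∂x_i ≠ 0`: otherwise `P` is a `p`-th power (`k` perfect) of a polynomial of smaller degree, also with positive value. (`P` is not constant.) So `v (∂P/∂x_i) = 0`, `i > 0`. `JJ D (w, x_1, .., P (at i), ..) = ∂P/∂x_i
JJ D (w, x_1, ...)` because `D P = ∑_{l>0} ∂P/∂x_l D x_l`. `P = w P'`: `D P = P' D w + w D P'`, so `JJ D (w, .., P, ..) = w JJ D (w, .., P', ..)`. Hence `w⁻¹ JJ D (w, x_1, ...) = (∂P/∂x_i)⁻¹ JJ D (w, .., P', ..) ∈ J`. -/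
def PRJ_stmt : Prop := ∀ (k : Type u) [Field k] [IsAlgClosed k] (n p : ℕ) (hn : 0 < n) [Fact p.Prime] [CharP k p]
  (D : Fin n → Derivation k (KK k n) (KK k n)), IsPar k n D → ∀ v : KK k n → ℤ, DVal v →
  (∀ i, Ge v 0 (xx k n i)) → (∀ c : k, c ≠ 0 → v (algebraMap k (KK k n) c) = 0) →
  (v (xx k n ⟨0, hn⟩) = 0 ∨ ∃ P : AA k n, P ≠ 0 ∧ ⟨0, hn⟩ ∉ P.vars ∧ 0 < v (algebraMap (AA k n) (KK k n) P)) →
  (xx k n ⟨0, hn⟩)⁻¹ ∈ AddSubgroup.closure {z | ∃ c : KK k n, Ge v 0 c ∧ ∃ y : Fin n → KK k n,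
    (∀ i, Ge v 0 (y i)) ∧ z = c * JJ D y}

/-! ### part 5: assembly -/

/-- **KEY** (medium; from SGK, JIN, ASA, RAM, XV, LOG, LAT, CON, ETA, PRJ). `a = x_1 / x_0`, `s a = a + 1`. Case (i) of ASA: `a - b` in the place of `a`: ETA for `y = x` gives `1 ∈ Sp v 0 JO`, and ETA with PRJ `x_0⁻¹ ∈ Sp v 0 JO`; CON with `b = 1`, `r = 0`. Case (ii): by RAM, XV, LOG:
`x_0⁻¹ = (∏_{i>0} x_i) (JJ D x / ∏ x_i) ∈ Sp v m (LL D s)`, so `w x_0⁻¹ ∈ Sp v m JO` (LAT), CON with `b = w`, `r = m`; the same for `1 = x_0 x_0⁻¹`. `JO` consists of fixed elements by JIN. -/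
def KEY_stmt : Prop := ∀ (k : Type u) [Field k] [IsAlgClosed k] (n d p : ℕ) (hn : 0 < n), Num n d p → CharP k p →
  ∀ D : Fin n → Derivation k (KK k n) (KK k n), IsPar k n D → ∀ s : KK k n →+* KK k n, IsSg k n d s →
  ∀ v : KK k n → ℤ, DVal v → (∀ i, Ge v 0 (xx k n i)) → (∀ c : k, c ≠ 0 → v (algebraMap k (KK k n) c) = 0) →
  (∃ w, IsUF s v w) → Loc s v →
  1 ∈ JO D s v ∧
  ((v (xx k n ⟨0, hn⟩) = 0 ∨ ∃ P : AA k n, P ≠ 0 ∧ ⟨0, hn⟩ ∉ P.vars ∧ 0 < v (algebraMap (AA k n) (KK k n) P)) →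
    (xx k n ⟨0, hn⟩)⁻¹ ∈ JO D s v)

/-- **CEN** (short to medium; from SID). If `v (x_0) > 0` and `v P = 0` for all `P ≠ 0` without `x_0`: let `q = {f ∈ A : f = 0 or v f > 0}`; every `f ∈ A` is `P + x_0 f_1` with `P` without `x_0`, so `f ∈ q` iff `x_0 ∣ f`. So the centre `P' = q ∩ R` is `(x_0)`, of height `1`. -/
def CEN_stmt : Prop := ∀ (k : Type u) [Field k] (n d : ℕ) (hn : 0 < n), IsNoetherianRing (RR k n d) →
  ∀ (v : KK k n → ℤ) (O : ValuationSubring (FF k n d)) (P' : Ideal (RR k n d)), DVal v → (∀ i, Ge v 0 (xx k n i)) →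
  (∀ c : k, c ≠ 0 → v (algebraMap k (KK k n) c) = 0) →
  (∀ x : FF k n d, x ∈ O ↔ Ge v 0 (io k n d x)) → IsCenter P' O → 2 ≤ P'.height →
  v (xx k n ⟨0, hn⟩) = 0 ∨ ∃ P : AA k n, P ≠ 0 ∧ ⟨0, hn⟩ ∉ P.vars ∧ 0 < v (algebraMap (AA k n) (KK k n) P)

/-- **ONE** (medium; from SGK, FGI, DRV, TRF, HTO, EXK, FIX, KEY, CEN). `x • ω ∈ Reg O` iff `ι x ∈ JO D s v` (TRF; `OF s v = ι O` by EXK and FIX). -/
def ONE_stmt : Prop := ∀ (k : Type u) [Field k] [IsAlgClosed k] (n d p : ℕ) (hn : 0 < n), Num n d p → CharP k p →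
  ∃ ω : Form k (FF k n d) n, ω ≠ 0 ∧
  (∀ O : ValuationSubring (FF k n d), IsDiscreteValuationRing O →
    (∀ r : RR k n d, algebraMap (RR k n d) (FF k n d) r ∈ O) → ω ∈ Reg k n O ∧
    ∀ P : Ideal (RR k n d), IsCenter P O → 2 ≤ P.height → ∀ x : RR k n d, (x : AA k n) = X ⟨0, hn⟩ →
      (algebraMap (RR k n d) (FF k n d) x)⁻¹ • ω ∈ Reg k n O) ∧
  ∀ (P : Ideal (RR k n d)) (O : ValuationSubring (FF k n d)), P.IsPrime → IsLocAt P O → ∀ y : FF k n d,
    y • ω ∈ Reg k n O → y ∈ O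

/-- **FIN** (medium; from SGK, FGI, NOR, DIM, SID, NNS, LDV, ONE). `d = min n p`, `R = RR k n d`, `S = (x_0)`, `ω` from ONE, `m = 1`, `g = x_0`. For a prime `P` of height `1`: `O = R_P` is a DVR (LDV); `ord_O ω = 0`: `ω ∈ Reg O`, and `ω = π ξ` with `ξ ∈ Reg O` would give `π⁻¹ ∈ O`. If `P = S` then
`x_0` generates the maximal ideal, `HasOrd O x_0 1`; otherwise `x_0 ∉ P` (SID), `HasOrd O x_0 0`. For `O` with centre of height `≥ 2`: `x_0 = u π^t`, `x_0⁻¹ ω ∈ Reg O`, so `ω = π^t (u x_0⁻¹ ω)`, `OrdGe O ω t`. -/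
def FIN_stmt : Prop := ∀ (n p : ℕ), p.Prime → 5 ≤ p → 2 * p ≤ (n - 1) * (n - 2) → ∀ (k : Type u) [Field k] [IsAlgClosed k] [CharP k p],
  ∃ (R : Type u) (_ : CommRing R) (_ : IsDomain R) (_ : Algebra k R), Algebra.FiniteType k R ∧ IsIntegrallyClosed R ∧
    ringKrullDim R = n ∧ ∃ x : R, Plt k (FractionRing R) R n (Ideal.span {x}) (fun _ => 0) ∧
      ¬ IsIntegrallyClosed (R ⧸ (Ideal.span {x} : Ideal R))

end Pool.Agent.PC
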